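import Pool.Agent.Y8.DI.Defs
import Pool.Agent.Y978.SKX.Ener

/-! The energy identity in `ℝ³` with damping (job DI-ENERR, for helper8). -/

open Set Filter Topology MeasureTheory Metric

set_option autoImplicit false

namespace Pool.Agent.Y813.DI

open Pool.Agent.Y5 (E3)
open Pool.Agent.Y303.SK
open Pool.Agent.Y500.SK
open Pool.Agent.Y978.SKX
open Pool.Agent.Y8.DI

theorem solL_nice {ι : Type} {ν : ℝ} {e : ι → E3 → E3} {lam : ι → ℝ} {T : ℝ}
    {u : ℝ → E3 → E3} (hu : SolLX ν e lam T u) : ∀ t ∈ Ico 0 T, Nice (u t) := by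
  intro t ht
  have hT' : (t + T) / 2 < T := by linarith [ht.2]
  have htm : t ∈ Icc 0 ((t + T) / 2) := ⟨ht.1, by linarith [ht.2]⟩
  obtain ⟨M0, h0⟩ := hu.bdd 0 _ hT'
  obtain ⟨M1, h1⟩ := hu.bdd 1 _ hT'
  obtain ⟨M2, h2⟩ := hu.bdd 2 _ hT'
  have n2 : ∀ x, ‖iteratedFDeriv ℝ 2 (u t) x‖ = ‖fderiv ℝ (fderiv ℝ (u t)) x‖ := fun x => by
    rw [← norm_iteratedFDeriv_fderiv, norm_iteratedFDeriv_one]
  refine ⟨hu.smooth t ht, ⟨M0, fun x => ?_⟩, ⟨M1, fun x => ?_⟩, ?_, ?_, ?_⟩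
  · simpa using (h0 t htm).1 x
  · simpa [norm_iteratedFDeriv_one] using (h1 t htm).1 x
  · simpa using (h0 t htm).2.1
  · simpa [norm_iteratedFDeriv_one] using (h1 t htm).2.1
  · simpa [n2] using (h2 t htm).2.1

theorem t_ENERRD (hd : S_DENSR) : S_ENERRD := by
  intro ν ι e lam T u hE hu hbd t ht
  have hS : SkewX e id (fun _ => (0 : ℝ)) :=
    ⟨hE.field, fun i => (hE.split i).imp_right (fun h => ⟨h.1, rfl, rfl⟩), hE.orth, hE.compl,
      fun _ => rfl, fun _ => by simp⟩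
  set T' := (t + T) / 2 with hT'
  have hT1 : T' < T := by rw [hT']; linarith [ht.2]
  have hT2 : t < T' := by rw [hT']; linarith [ht.2]
  obtain ⟨b, hbs, hbb⟩ := hbd T' hT1
  obtain ⟨M0, hM0⟩ := hu.bdd 0 T' hT1
  obtain ⟨M1, hM1⟩ := hu.bdd 1 T' hT1
  obtain ⟨M2, hM2⟩ := hu.bdd 2 T' hT1
  have hn := solL_nice hu
  have n2 : ∀ τ x, ‖iteratedFDeriv ℝ 2 (u τ) x‖ = ‖fderiv ℝ (fderiv ℝ (u τ)) x‖ := fun τ x => by
    rw [← norm_iteratedFDeriv_fderiv, norm_iteratedFDeriv_one]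
  have hc2 : ∀ τ ∈ Ico 0 T, ContDiff ℝ 2 (u τ) := fun τ hτ => (hn τ hτ).c2
  -- the reduced right-hand side
  set g : ι → ℝ → ℝ := fun i τ => -(ν * dirf (u τ) (e i)) - adv (u τ) (u τ) (e i) with hg
  set z : ι → ℝ → ℝ := fun i τ => ipr (u τ) (e i) with hz
  have hzd : ∀ i, ∀ τ ∈ Ico 0 T,
      HasDerivWithinAt (z i) (-(lam i * z i τ) + g i τ) (Ico 0 T) τ := by
    intro i τ hτ
    refine (hu.eqn i τ hτ).congr_deriv ?_
    simp only [hz, hg]; ring
  set W : ι → ℝ → ℝ := fun i τ => z i τ ^ 2 with hW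
  set W' : ι → ℝ → ℝ := fun i τ => 2 * (z i τ * g i τ) - 2 * (lam i * z i τ ^ 2) with hW'
  have hWd : ∀ i, ∀ τ ∈ Ico 0 T, HasDerivWithinAt (W i) (W' i τ) (Ico 0 T) τ := by
    intro i τ hτ
    have h1 := (hzd i τ hτ).pow 2
    refine h1.congr_deriv ?_
    simp only [hW']
    push_cast
    ring
  -- bounds
  have hen : ∀ i, ∫ x, ‖e i x‖ ^ 2 ≤ 1 := by
    intro i
    have := (hS.orth i i).1 rfl
    unfold ipr at this
    simp only [real_inner_self_eq_norm_sq] at this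
    exact this.le
  have hdl : ∀ i, ∀ τ ∈ Ico 0 T, dirf (u τ) (e i) = -ipr (lap (u τ)) (e i) := fun i τ hτ =>
    dirf_eq (u τ) (e i) (hc2 τ hτ) (contDiff_infty.1 (hS.field i).smooth 1)
      (hS.field i).cpt
  set A := 3 ^ 2 * max M2 0 with hA
  set B := M0 ^ 2 * max M1 0 with hB
  have hA0 : 0 ≤ A := by rw [hA]; positivity
  have hB0 : 0 ≤ B := by rw [hB]; positivity
  have hgb : ∀ i, ∀ τ ∈ Icc 0 T', |g i τ| ≤ |ν| * ((A + 1) / 2) + (B + 1) / 2 := by
    intro i τ hτ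
    have hτ' : τ ∈ Ico 0 T := ⟨hτ.1, hτ.2.trans_lt hT1⟩
    have hnτ := hn τ hτ'
    have k2 : ∫ x, ‖fderiv ℝ (fderiv ℝ (u τ)) x‖ ^ 2 ≤ max M2 0 := by
      have := (hM2 τ hτ).2.2
      simp only [n2] at this
      exact this.trans (le_max_left _ _)
    have k1 : ∫ x, ‖fderiv ℝ (u τ) x‖ ^ 2 ≤ max M1 0 := by
      have := (hM1 τ hτ).2.2
      simp only [norm_iteratedFDeriv_one] at this
      exact this.trans (le_max_left _ _)
    have k0 : ∀ x, ‖u τ x‖ ≤ M0 := fun x => by simpa using (hM0 τ hτ).1 x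
    have h1 : |ipr (lap (u τ)) (e i)| ≤ (A + 1) / 2 := by
      refine ipr_le _ _ _ _ hnτ.lap_int.1 (CS.sq_int (hS.field i)) (hnτ.lap_int.2.trans ?_) (hen i)
      rw [hA]
      exact mul_le_mul_of_nonneg_left k2 (by norm_num)
    have h2 : |adv (u τ) (u τ) (e i)| ≤ (B + 1) / 2 := by
      have h3 := hnτ.adv_int M0 k0
      refine ipr_le (fun x => fderiv ℝ (u τ) x (u τ x)) _ _ _ h3.1 (CS.sq_int (hS.field i))
        (h3.2.trans ?_) (hen i)
      rw [hB]
      exact mul_le_mul_of_nonneg_left k1 (by positivity)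
    simp only [hg]
    rw [hdl i τ hτ']
    calc _ ≤ |-(ν * -ipr (lap (u τ)) (e i))| + |adv (u τ) (u τ) (e i)| := abs_sub _ _
      _ = |ν| * |ipr (lap (u τ)) (e i)| + |adv (u τ) (u τ) (e i)| := by
          rw [abs_neg, abs_mul, abs_neg]
      _ ≤ _ := by gcongr
  set Q := |ν| * ((A + 1) / 2) + (B + 1) / 2 with hQ
  have hQ0 : 0 ≤ Q := by rw [hQ]; positivity
  have hWb : ∀ i, ∀ τ ∈ Icc 0 T', |W' i τ| ≤ (2 * Q + 2) * b i := by
    intro i τ hτ
    obtain ⟨h1, h2⟩ := hbb τ hτ i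
    have h3 := hgb i τ hτ
    have hb0 : 0 ≤ b i := (abs_nonneg _).trans h1
    have h4 : 0 ≤ lam i * z i τ ^ 2 := mul_nonneg (hE.nonneg i) (sq_nonneg _)
    calc |W' i τ| ≤ |2 * (z i τ * g i τ)| + |2 * (lam i * z i τ ^ 2)| := abs_sub _ _
      _ = 2 * (|z i τ| * |g i τ|) + 2 * (lam i * z i τ ^ 2) := by
          rw [abs_mul, abs_mul, abs_mul 2 (lam i * z i τ ^ 2), abs_of_nonneg h4]
          norm_num
      _ ≤ 2 * (b i * Q) + 2 * b i := by
          have h5 : |z i τ| * |g i τ| ≤ b i * Q := by gcongr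
          linarith
      _ = _ := by ring
  have hsum : ∀ τ ∈ Ico 0 T, HasSum (fun i => W i τ) (ipr (u τ) (u τ)) := by
    intro τ hτ
    have h1 := parsevalX hd hS (u τ) (u τ) (hn τ hτ) (hu.axi τ hτ) (hu.dv τ hτ) (hn τ hτ).memLp
    have h4 : (fun i => W i τ) = fun i => ipr (u τ) (e i) * ipr (u τ) (e i) := by
      funext i; simp only [hW, hz]; ring
    rw [h4]
    exact h1
  have key := series_deriv W W' (fun i => (2 * Q + 2) * b i) T T' t
    (hbs.mul_left _) hWd hT1 hWb ⟨ht.1, hT2⟩ (hsum t ht).summable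
  -- the damping
  have htm : t ∈ Icc 0 T' := ⟨ht.1, hT2.le⟩
  have hls : Summable (fun i => lam i * ipr (u t) (e i) ^ 2) :=
    Summable.of_nonneg_of_le (fun i => mul_nonneg (hE.nonneg i) (sq_nonneg _))
      (fun i => (hbb t htm i).2) hbs
  -- the value of the derivative
  have hval : HasSum (fun i => W' i t)
      (-(2 * (ν * dirf (u t) (u t) + ∑' i, lam i * ipr (u t) (e i) ^ 2))) := by
    have hnt := hn t ht
    have e1 := parsevalX hd hS (u t) (lap (u t)) hnt (hu.axi t ht) (hu.dv t ht) hnt.lap_memLp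
    have e2 := parsevalX hd hS (u t) (fun x => fderiv ℝ (u t) x (u t x)) hnt (hu.axi t ht)
      (hu.dv t ht) hnt.adv_memLp
    have e3 : ipr (u t) (lap (u t)) = -dirf (u t) (u t) := by
      rw [ipr_comm, hnt.dirf_self]; ring
    have e4 : ipr (u t) (fun x => fderiv ℝ (u t) x (u t x)) = 0 := by
      rw [ipr_comm]; exact hnt.adv_self (hu.dv t ht)
    rw [e3] at e1
    rw [e4] at e2
    have e5 : HasSum (fun i => z i t * g i t) (-(ν * dirf (u t) (u t))) := by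
      have h1 := (e1.mul_left ν).sub e2
      have h2 : (fun i => z i t * g i t) = fun i => ν * (ipr (u t) (e i) * ipr (lap (u t)) (e i)) -
          ipr (u t) (e i) * ipr (fun x => fderiv ℝ (u t) x (u t x)) (e i) := by
        funext i
        simp only [hg, hz]
        rw [hdl i t ht]
        show ipr (u t) (e i) * (-(ν * -ipr (lap (u t)) (e i)) -
          ipr (fun x => fderiv ℝ (u t) x (u t x)) (e i)) = _
        ring
      rw [h2]
      have h3 : -(ν * dirf (u t) (u t)) = ν * -dirf (u t) (u t) - 0 := by ring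
      rw [h3]; exact h1
    have h4 := (e5.mul_left 2).sub (hls.hasSum.mul_left 2)
    have h5 : -(2 * (ν * dirf (u t) (u t) + ∑' i, lam i * ipr (u t) (e i) ^ 2)) =
        2 * -(ν * dirf (u t) (u t)) - 2 * ∑' i, lam i * ipr (u t) (e i) ^ 2 := by ring
    rw [h5]; exact h4
  refine ⟨hls, ?_⟩
  rw [hval.tsum_eq] at key
  refine key.congr (fun τ hτ => ?_) ?_
  · exact (hsum τ hτ).tsum_eq.symm
  · exact (hsum t ht).tsum_eq.symm

end Pool.Agent.Y813.DI
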